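import Mathlib

/-!
# Contact foliations without toral leaves

For every `q ≥ 2` the torus `T^{q+2}` carries a `q`-contact structure (with `n = 1`, so that the
dimension is `2n + q`) no leaf of whose contact foliation is homeomorphic to `T^q`.

The example: on `T^{q+2}` with coordinates `(x, y, θ, t₁, …, t_{q-1})` put
`α = cos 2πθ (dx + √2 dt₁) + sin 2πθ (dy + √3 dt₁)` and `λ₁ = α`, `λ_{i+1} = α + dt_i`.
It is the mapping torus of an irrational translation of the unit cotangent bundle of a flat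
2-torus (times a torus).
-/

open scoped ContDiff
open Set

noncomputable section

namespace Pool.Agent.Results.MP_666db5_gt.NoToralLeaf

/-! ## General definitions

Throughout `E` is a finite-dimensional real vector space (below `E = ℝ^{q+2}`), and the closed
manifold is `M = E / Γ`, where `Γ` is a group of diffeomorphisms of `E`.  Objects on `M` are
given by `Γ`-invariant objects on `E`. -/

section General

variable {E : Type*} [NormedAddCommGroup E] [NormedSpace ℝ E]

/-- `Γ` is a group of smooth diffeomorphisms of `E` acting freely and properly discontinuously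
with compact quotient, so that `M = E / Γ` is a closed connected smooth manifold of the same
dimension as `E`, with universal covering `E`. -/
structure IsDeckGroup (Γ : Subgroup (Equiv.Perm E)) : Prop where
  smooth : ∀ g ∈ Γ, ContDiff ℝ ∞ (g : E → E)
  free : ∀ g ∈ Γ, ∀ x, g x = x → g = 1
  properlyDiscontinuous : ∀ K : Set E, IsCompact K →
    {g : Equiv.Perm E | g ∈ Γ ∧ ∃ x ∈ K, g x ∈ K}.Finite
  cocompact : ∃ K : Set E, IsCompact K ∧ ∀ x, ∃ g ∈ Γ, g x ∈ K

/-- The exterior derivative of a 1-form `θ` at the point `x`, evaluated on the tangent vectors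
`v`, `w`. -/
def extD (θ : E → (E →L[ℝ] ℝ)) (x v w : E) : ℝ := fderiv ℝ θ x v w - fderiv ℝ θ x w v

/-- The intersection of the kernels of the forms `lam 0, …, lam (q-1)` at the point `x`. -/
def xi {q : ℕ} (lam : Fin q → E → (E →L[ℝ] ℝ)) (x : E) : Submodule ℝ E :=
  ⨅ i, LinearMap.ker (lam i x).toLinearMap

/-- The forms `lam 0, …, lam (q-1)` and the bundle `R` define a `q`-contact structure on the
closed manifold `M = E / Γ` of dimension `2 n + q`: the forms are smooth, `Γ`-invariant and
pointwise linearly independent, `TM = R ⊕ ξ` with `ξ` the common kernel of the forms, and for each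
`i` the restriction of `d (lam i)` to `ξ` is non-degenerate and the kernel of `d (lam i)` is `R`. -/
structure IsQContact (Γ : Subgroup (Equiv.Perm E)) (n q : ℕ) (lam : Fin q → E → (E →L[ℝ] ℝ))
    (R : E → Submodule ℝ E) : Prop where
  n_pos : 1 ≤ n
  q_pos : 1 ≤ q
  deckGroup : IsDeckGroup Γ
  finiteDimensional : FiniteDimensional ℝ E
  finrank_eq : Module.finrank ℝ E = 2 * n + q
  smooth : ∀ i, ContDiff ℝ ∞ (lam i)
  invariant : ∀ i, ∀ g ∈ Γ, ∀ x v, lam i (g x) (fderiv ℝ (g : E → E) x v) = lam i x v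
  linearIndependent : ∀ x, LinearIndependent ℝ (fun i => lam i x)
  splitting : ∀ x, IsCompl (R x) (xi lam x)
  nondegenerate : ∀ i x, ∀ v ∈ xi lam x, (∀ w ∈ xi lam x, extD (lam i) x v w = 0) → v = 0
  ker_eq : ∀ i x v, (∀ w, extD (lam i) x v w = 0) ↔ v ∈ R x

/-- `X` is the system of Reeb fields: `X i` is a section of `R` and `lam j (X i) = δ_{ij}`. -/
def IsReeb {q : ℕ} (lam : Fin q → E → (E →L[ℝ] ℝ)) (R : E → Submodule ℝ E)
    (X : Fin q → E → E) : Prop :=
  ∀ i x, X i x ∈ R x ∧ ∀ j, lam j x (X i x) = if i = j then 1 else 0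

/-- The contact action (lifted to `E`): a smooth action `F` of `ℝ^q` on `E` commuting with `Γ`
(so that it descends to `M = E / Γ`) which is generated by the Reeb fields. -/
structure ContactAction (Γ : Subgroup (Equiv.Perm E)) {q : ℕ} (lam : Fin q → E → (E →L[ℝ] ℝ))
    (R : E → Submodule ℝ E) where
  /-- the action -/
  F : (Fin q → ℝ) → E → E
  /-- the Reeb fields -/
  X : Fin q → E → E
  smooth : ContDiff ℝ ∞ (fun p : (Fin q → ℝ) × E => F p.1 p.2)
  zero : ∀ x, F 0 x = x
  add : ∀ s t x, F (s + t) x = F s (F t x)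
  equivariant : ∀ g ∈ Γ, ∀ s x, F s (g x) = g (F s x)
  reeb : IsReeb lam R X
  generated : ∀ i s x, HasDerivAt (fun τ : ℝ => F (s + τ • Pi.single i 1) x) (X i (F s x)) 0

variable {Γ : Subgroup (Equiv.Perm E)} {q : ℕ} {lam : Fin q → E → (E →L[ℝ] ℝ)}
  {R : E → Submodule ℝ E}

/-- The isotropy group of the contact action on `M = E / Γ` at the point `[x]` of `M`: the set of
all `s` with `F s [x] = [x]`, i.e. with `F s x = g x` for some `g ∈ Γ`. -/
def ContactAction.isotropy (A : ContactAction Γ lam R) (x : E) : AddSubgroup (Fin q → ℝ) where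
  carrier := {s | ∃ g ∈ Γ, A.F s x = g x}
  zero_mem' := ⟨1, Γ.one_mem, by simp [A.zero]⟩
  add_mem' := by
    rintro s t ⟨g, hg, hs⟩ ⟨h, hh, ht⟩
    refine ⟨h * g, Γ.mul_mem hh hg, ?_⟩
    rw [A.add, ht, A.equivariant h hh, hs]
    rfl
  neg_mem' := by
    rintro s ⟨g, hg, hs⟩
    refine ⟨g⁻¹, Γ.inv_mem hg, ?_⟩
    have h1 : A.F (-s) (g x) = x := by
      rw [← hs, ← A.add, neg_add_cancel, A.zero]
    have h2 := A.equivariant g hg (-s) x
    rw [h1] at h2
    rw [Equiv.Perm.inv_def]
    exact ((Equiv.symm_apply_eq g).2 h2).symm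

/-- The leaf of the contact foliation through the point `[x]` of `M`, with its leaf topology: the
orbit of `[x]` under the contact action, i.e. the quotient of `ℝ^q` by the isotropy group. -/
abbrev ContactAction.Leaf (A : ContactAction Γ lam R) (x : E) : Type :=
  (Fin q → ℝ) ⧸ A.isotropy x

end General

/-! ## The manifold `T^d = ℝ^d / ℤ^d` -/

/-- The group of the translations of `ℝ^d` by integer vectors. -/
def torusGroup (d : ℕ) : Subgroup (Equiv.Perm (Fin d → ℝ)) where
  carrier := {g | ∃ k : Fin d → ℤ, ∀ x, g x = x + fun i => (k i : ℝ)}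
  one_mem' := ⟨0, fun x => by funext i; simp⟩
  mul_mem' := by
    rintro g h ⟨k, hk⟩ ⟨l, hl⟩
    refine ⟨k + l, fun x => ?_⟩
    rw [Equiv.Perm.mul_apply, hl, hk]
    funext i; simp; ring
  inv_mem' := by
    rintro g ⟨k, hk⟩
    refine ⟨-k, fun x => ?_⟩
    rw [Equiv.Perm.inv_def, Equiv.symm_apply_eq, hk]
    funext i; simp

lemma isDeckGroup_torusGroup (d : ℕ) : IsDeckGroup (torusGroup d) where
  smooth := by
    rintro g ⟨k, hk⟩
    have : (g : (Fin d → ℝ) → (Fin d → ℝ)) = fun x => x + fun i => (k i : ℝ) := funext hk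
    rw [this]
    exact contDiff_id.add contDiff_const
  free := by
    rintro g ⟨k, hk⟩ x hx
    ext y i
    have h1 : (x i : ℝ) + k i = x i := by
      have := congrFun (hk x) i
      rw [hx] at this
      simpa using this.symm
    have h2 := congrFun (hk y) i
    simp only [Pi.add_apply] at h2
    rw [h2]
    simp only [Equiv.Perm.coe_one, id_eq]
    linarith
  properlyDiscontinuous := by
    intro K hK
    obtain ⟨C, hC⟩ := hK.isBounded.exists_norm_le
    obtain ⟨N, hN⟩ := exists_nat_ge (2 * C)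
    have hfin : (Set.Icc (fun _ => -(N : ℤ)) (fun _ => (N : ℤ)) : Set (Fin d → ℤ)).Finite :=
      Set.finite_Icc _ _
    refine (hfin.image (fun k : Fin d → ℤ =>
      (Equiv.addRight (fun i => (k i : ℝ)) : Equiv.Perm (Fin d → ℝ)))).subset ?_
    rintro g ⟨⟨k, hk⟩, x, hx, hgx⟩
    refine ⟨k, ?_, ?_⟩
    · have hb : ∀ i, |(k i : ℝ)| ≤ N := by
        intro i
        have h1 : (k i : ℝ) = g x i - x i := by rw [hk]; simp
        have h2 : |g x i| ≤ C := (norm_le_pi_norm (g x) i).trans (hC _ hgx)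
        have h3 : |x i| ≤ C := (norm_le_pi_norm x i).trans (hC _ hx)
        rw [h1]
        calc |g x i - x i| ≤ |g x i| + |x i| := abs_sub _ _
          _ ≤ N := by linarith
      constructor
      · intro i
        have := (abs_le.1 (hb i)).1
        have h4 : (-(N : ℤ) : ℤ) ≤ k i := by exact_mod_cast this
        exact h4
      · intro i
        have := (abs_le.1 (hb i)).2
        have h4 : k i ≤ (N : ℤ) := by exact_mod_cast this
        exact h4
    · ext y i
      rw [hk y]
      rfl
  cocompact := by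
    refine ⟨Set.Icc 0 1, isCompact_Icc, fun x => ?_⟩
    refine ⟨Equiv.addRight (fun i => ((-⌊x i⌋ : ℤ) : ℝ)), ⟨fun i => -⌊x i⌋, fun y => rfl⟩, ?_⟩
    constructor
    · intro i
      have := Int.floor_le (x i)
      simp only [Equiv.coe_addRight, Pi.zero_apply, Pi.add_apply, Int.cast_neg]
      linarith
    · intro i
      have := Int.lt_floor_add_one (x i)
      simp only [Equiv.coe_addRight, Pi.one_apply, Pi.add_apply, Int.cast_neg]
      linarith

/-! ## The example

`V r = ℝ^{r+4}` with coordinates `(x, y, θ, t_0, …, t_r)`; here `q = r + 2`. -/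

/-- `ℝ^{r+4}`. -/
abbrev V (r : ℕ) := Fin (r + 4) → ℝ

/-- The index of the coordinate `t_j`. -/
def ti {r : ℕ} (j : Fin (r + 1)) : Fin (r + 4) := j.succ.succ.succ

/-- The 1-form `dx + √2 dt_0`. -/
def formP (r : ℕ) : V r →L[ℝ] ℝ :=
  ContinuousLinearMap.proj 0 + √2 • ContinuousLinearMap.proj (ti 0)

/-- The 1-form `dy + √3 dt_0`. -/
def formQ (r : ℕ) : V r →L[ℝ] ℝ :=
  ContinuousLinearMap.proj 1 + √3 • ContinuousLinearMap.proj (ti 0)

/-- The 1-form `α = cos 2πθ (dx + √2 dt_0) + sin 2πθ (dy + √3 dt_0)`. -/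
def alpha (r : ℕ) (z : V r) : V r →L[ℝ] ℝ :=
  Real.cos (2 * Real.pi * z 2) • formP r + Real.sin (2 * Real.pi * z 2) • formQ r

/-- The 1-form `β = - sin 2πθ (dx + √2 dt_0) + cos 2πθ (dy + √3 dt_0)`. -/
def beta (r : ℕ) (z : V r) : V r →L[ℝ] ℝ :=
  (-Real.sin (2 * Real.pi * z 2)) • formP r + Real.cos (2 * Real.pi * z 2) • formQ r

/-- The forms `lam 0 = α` and `lam (j+1) = α + dt_j`. -/
def lam (r : ℕ) (i : Fin (r + 2)) (z : V r) : V r →L[ℝ] ℝ :=
  alpha r z + Fin.cases (motive := fun _ => V r →L[ℝ] ℝ) 0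
    (fun j => ContinuousLinearMap.proj (ti j)) i

/-- The bundle `R`, the common kernel of `dθ` and `β`. -/
def bundleR (r : ℕ) (z : V r) : Submodule ℝ (V r) where
  carrier := {v | v 2 = 0 ∧ beta r z v = 0}
  zero_mem' := by simp
  add_mem' := by
    rintro v w ⟨h1, h2⟩ ⟨h3, h4⟩
    exact ⟨by simp [h1, h3], by rw [map_add, h2, h4, add_zero]⟩
  smul_mem' := by
    rintro c v ⟨h1, h2⟩
    exact ⟨by simp [h1], by rw [map_smul, h2, smul_zero]⟩

lemma mem_bundleR {r : ℕ} {z v : V r} : v ∈ bundleR r z ↔ v 2 = 0 ∧ beta r z v = 0 := Iff.rfl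

lemma formP_apply {r : ℕ} (v : V r) : formP r v = v 0 + √2 * v (ti 0) := by
  simp [formP]

lemma formQ_apply {r : ℕ} (v : V r) : formQ r v = v 1 + √3 * v (ti 0) := by
  simp [formQ]

lemma alpha_apply {r : ℕ} (z v : V r) : alpha r z v =
    Real.cos (2 * Real.pi * z 2) * (v 0 + √2 * v (ti 0)) +
      Real.sin (2 * Real.pi * z 2) * (v 1 + √3 * v (ti 0)) := by
  simp [alpha, formP_apply, formQ_apply]

lemma beta_apply {r : ℕ} (z v : V r) : beta r z v =
    -Real.sin (2 * Real.pi * z 2) * (v 0 + √2 * v (ti 0)) +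
      Real.cos (2 * Real.pi * z 2) * (v 1 + √3 * v (ti 0)) := by
  simp [beta, formP_apply, formQ_apply]

lemma lam_zero {r : ℕ} (z v : V r) : lam r 0 z v = alpha r z v := by
  simp [lam]

lemma lam_succ {r : ℕ} (j : Fin (r + 1)) (z v : V r) :
    lam r j.succ z v = alpha r z v + v (ti j) := by
  simp [lam]

lemma ti_ne_zero {r : ℕ} (j : Fin (r + 1)) : (ti j : Fin (r + 4)) ≠ 0 := by
  intro h; simpa [ti] using congrArg Fin.val h

lemma ti_ne_one {r : ℕ} (j : Fin (r + 1)) : (ti j : Fin (r + 4)) ≠ 1 := by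
  intro h; simpa [ti] using congrArg Fin.val h

lemma ti_ne_two {r : ℕ} (j : Fin (r + 1)) : (ti j : Fin (r + 4)) ≠ 2 := by
  intro h
  have h1 := congrArg Fin.val h
  have h2 : ((2 : Fin (r + 4)) : ℕ) = 2 := rfl
  rw [h2] at h1
  simp [ti] at h1

lemma ti_inj {r : ℕ} {i j : Fin (r + 1)} : (ti i : Fin (r + 4)) = ti j ↔ i = j := by
  simp [ti]

/-- case distinction on the coordinates -/
lemma coord_cases {r : ℕ} {p : Fin (r + 4) → Prop} (h0 : p 0) (h1 : p 1) (h2 : p 2)
    (h3 : ∀ j, p (ti j)) (i : Fin (r + 4)) : p i := by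
  refine Fin.cases h0 (fun i => ?_) i
  refine Fin.cases h1 (fun i => ?_) i
  refine Fin.cases h2 (fun i => ?_) i
  exact h3 i

/-- The derivative of the form `α`. -/
lemma hasFDerivAt_alpha {r : ℕ} (z : V r) : HasFDerivAt (alpha r)
    ((2 * Real.pi) • (ContinuousLinearMap.proj (R := ℝ) (φ := fun _ : Fin (r + 4) => ℝ) 2).smulRight
      (beta r z)) z := by
  have h2 : HasFDerivAt (fun z : V r => 2 * Real.pi * z 2)
      ((2 * Real.pi) • (ContinuousLinearMap.proj (R := ℝ) (φ := fun _ : Fin (r + 4) => ℝ) 2)) z := by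
    have := (ContinuousLinearMap.proj (R := ℝ) (φ := fun _ : Fin (r + 4) => ℝ) 2).hasFDerivAt
      (x := z)
    exact this.const_mul (2 * Real.pi)
  have hc := (h2.cos).smul_const (formP r)
  have hs := (h2.sin).smul_const (formQ r)
  have h := hc.add hs
  refine h.congr_fderiv ?_
  ext v
  simp [beta]
  ring

lemma fderiv_lam {r : ℕ} (i : Fin (r + 2)) (z : V r) : fderiv ℝ (lam r i) z =
    ((2 * Real.pi) • (ContinuousLinearMap.proj (R := ℝ) (φ := fun _ : Fin (r + 4) => ℝ) 2).smulRight
      (beta r z)) := by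
  have h := (hasFDerivAt_alpha z).add_const (Fin.cases (motive := fun _ => V r →L[ℝ] ℝ) 0
    (fun j => ContinuousLinearMap.proj (ti j)) i)
  exact h.fderiv

lemma extD_lam {r : ℕ} (i : Fin (r + 2)) (z v w : V r) : extD (lam r i) z v w =
    2 * Real.pi * (v 2 * beta r z w - w 2 * beta r z v) := by
  rw [extD, fderiv_lam]
  simp
  ring

lemma mem_xi {r : ℕ} {z v : V r} : v ∈ xi (lam r) z ↔ alpha r z v = 0 ∧ ∀ j, v (ti j) = 0 := by
  simp only [xi, Submodule.mem_iInf, LinearMap.mem_ker, ContinuousLinearMap.coe_coe]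
  constructor
  · intro h
    have h0 : alpha r z v = 0 := by rw [← lam_zero]; exact h 0
    refine ⟨h0, fun j => ?_⟩
    have := h j.succ
    rw [lam_succ, h0, zero_add] at this
    exact this
  · rintro ⟨h0, h1⟩ i
    refine Fin.cases ?_ (fun j => ?_) i
    · rw [lam_zero, h0]
    · rw [lam_succ, h0, h1, zero_add]

/-- The displacement of the contact action. -/
def disp {r : ℕ} (s : Fin (r + 2) → ℝ) (θ : ℝ) : V r :=
  Fin.cons (s 0 * Real.cos (2 * Real.pi * θ) - √2 * (s 1 - s 0))
    (Fin.cons (s 0 * Real.sin (2 * Real.pi * θ) - √3 * (s 1 - s 0))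
      (Fin.cons 0 (fun j : Fin (r + 1) => s j.succ - s 0)))

lemma disp_zero {r : ℕ} (s : Fin (r + 2) → ℝ) (θ : ℝ) :
    disp s θ 0 = s 0 * Real.cos (2 * Real.pi * θ) - √2 * (s 1 - s 0) := rfl

lemma disp_one {r : ℕ} (s : Fin (r + 2) → ℝ) (θ : ℝ) :
    disp s θ 1 = s 0 * Real.sin (2 * Real.pi * θ) - √3 * (s 1 - s 0) := rfl

lemma disp_two {r : ℕ} (s : Fin (r + 2) → ℝ) (θ : ℝ) : disp s θ 2 = 0 := rfl

lemma disp_ti {r : ℕ} (s : Fin (r + 2) → ℝ) (θ : ℝ) (j : Fin (r + 1)) :
    disp s θ (ti j) = s j.succ - s 0 := rfl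

lemma disp_ti_zero {r : ℕ} (s : Fin (r + 2) → ℝ) (θ : ℝ) :
    disp s θ (ti 0) = s 1 - s 0 := rfl

lemma disp_add {r : ℕ} (s t : Fin (r + 2) → ℝ) (θ : ℝ) :
    disp (s + t) θ = disp s θ + disp t θ := by
  funext i
  refine coord_cases (p := fun i => disp (s + t) θ i = (disp s θ + disp t θ) i) ?_ ?_ ?_ (fun j => ?_) i
  · simp only [Pi.add_apply, disp_zero]; ring
  · simp only [Pi.add_apply, disp_one]; ring
  · simp only [Pi.add_apply, disp_two]; ring
  · simp only [Pi.add_apply, disp_ti]; ring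

lemma disp_smul {r : ℕ} (c : ℝ) (s : Fin (r + 2) → ℝ) (θ : ℝ) :
    disp (c • s) θ = c • disp s θ := by
  funext i
  refine coord_cases (p := fun i => disp (c • s) θ i = (c • disp s θ) i) ?_ ?_ ?_ (fun j => ?_) i
  · simp only [Pi.smul_apply, disp_zero, smul_eq_mul]; ring
  · simp only [Pi.smul_apply, disp_one, smul_eq_mul]; ring
  · simp only [Pi.smul_apply, disp_two, smul_eq_mul]; ring
  · simp only [Pi.smul_apply, disp_ti, smul_eq_mul]; ring

lemma beta_disp {r : ℕ} (s : Fin (r + 2) → ℝ) (z : V r) : beta r z (disp s (z 2)) = 0 := by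
  rw [beta_apply, disp_zero, disp_one, disp_ti_zero]
  ring

lemma alpha_disp {r : ℕ} (s : Fin (r + 2) → ℝ) (z : V r) : alpha r z (disp s (z 2)) = s 0 := by
  rw [alpha_apply, disp_zero, disp_one, disp_ti_zero]
  have := Real.sin_sq_add_cos_sq (2 * Real.pi * z 2)
  linear_combination (s 0) * this

lemma lam_disp {r : ℕ} (s : Fin (r + 2) → ℝ) (z : V r) (i : Fin (r + 2)) :
    lam r i z (disp s (z 2)) = s i := by
  refine Fin.cases ?_ (fun j => ?_) i
  · rw [lam_zero, alpha_disp]
  · rw [lam_succ, alpha_disp, disp_ti]; ring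

/-- The vector `(-sin 2πθ, cos 2πθ, 0, …, 0)`. -/
def vecN {r : ℕ} (θ : ℝ) : V r :=
  Fin.cons (-Real.sin (2 * Real.pi * θ)) (Fin.cons (Real.cos (2 * Real.pi * θ))
    (Fin.cons 0 (fun _ : Fin (r + 1) => 0)))

lemma alpha_vecN {r : ℕ} (z : V r) : alpha r z (vecN (z 2)) = 0 := by
  rw [alpha_apply]
  have h0 : (vecN (z 2) : V r) 0 = -Real.sin (2 * Real.pi * z 2) := rfl
  have h1 : (vecN (z 2) : V r) 1 = Real.cos (2 * Real.pi * z 2) := rfl
  have h3 : (vecN (z 2) : V r) (ti 0) = 0 := rfl
  rw [h0, h1, h3]; ring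

lemma beta_vecN {r : ℕ} (z : V r) : beta r z (vecN (z 2)) = 1 := by
  rw [beta_apply]
  have h0 : (vecN (z 2) : V r) 0 = -Real.sin (2 * Real.pi * z 2) := rfl
  have h1 : (vecN (z 2) : V r) 1 = Real.cos (2 * Real.pi * z 2) := rfl
  have h3 : (vecN (z 2) : V r) (ti 0) = 0 := rfl
  rw [h0, h1, h3]
  have := Real.sin_sq_add_cos_sq (2 * Real.pi * z 2)
  linear_combination this

/-- The vector `∂_θ`. -/
def vecT {r : ℕ} : V r :=
  Fin.cons 0 (Fin.cons 0 (Fin.cons 1 (fun _ : Fin (r + 1) => 0)))

lemma alpha_vecT {r : ℕ} (z : V r) : alpha r z vecT = 0 := by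
  rw [alpha_apply]
  have h0 : (vecT : V r) 0 = 0 := rfl
  have h1 : (vecT : V r) 1 = 0 := rfl
  have h3 : (vecT : V r) (ti 0) = 0 := rfl
  rw [h0, h1, h3]; ring

lemma beta_vecT {r : ℕ} (z : V r) : beta r z vecT = 0 := by
  rw [beta_apply]
  have h0 : (vecT : V r) 0 = 0 := rfl
  have h1 : (vecT : V r) 1 = 0 := rfl
  have h3 : (vecT : V r) (ti 0) = 0 := rfl
  rw [h0, h1, h3]; ring

lemma vecN_two {r : ℕ} (θ : ℝ) : (vecN θ : V r) 2 = 0 := rfl
lemma vecT_two {r : ℕ} : (vecT : V r) 2 = 1 := rfl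
lemma vecN_ti {r : ℕ} (θ : ℝ) (j : Fin (r + 1)) : (vecN θ : V r) (ti j) = 0 := rfl
lemma vecT_ti {r : ℕ} (j : Fin (r + 1)) : (vecT : V r) (ti j) = 0 := rfl

lemma vecN_mem {r : ℕ} (z : V r) : vecN (z 2) ∈ xi (lam r) z :=
  mem_xi.2 ⟨alpha_vecN z, fun j => vecN_ti _ j⟩

lemma vecT_mem {r : ℕ} (z : V r) : vecT ∈ xi (lam r) z :=
  mem_xi.2 ⟨alpha_vecT z, fun j => vecT_ti j⟩

/-- a vector of `ξ` in the kernel of `dθ` and `β` vanishes -/
lemma eq_zero_of_mem {r : ℕ} {z v : V r} (hv : v ∈ xi (lam r) z) (h2 : v 2 = 0)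
    (hb : beta r z v = 0) : v = 0 := by
  obtain ⟨ha, ht⟩ := mem_xi.1 hv
  rw [alpha_apply, ht 0] at ha
  rw [beta_apply, ht 0] at hb
  have hsc := Real.sin_sq_add_cos_sq (2 * Real.pi * z 2)
  funext i
  refine coord_cases (p := fun i => v i = (0 : V r) i) ?_ ?_ ?_ (fun j => ?_) i
  · simp only [Pi.zero_apply]
    linear_combination (Real.cos (2 * Real.pi * z 2)) * ha - (Real.sin (2 * Real.pi * z 2)) * hb -
      (v 0) * hsc
  · simp only [Pi.zero_apply]
    linear_combination (Real.sin (2 * Real.pi * z 2)) * ha + (Real.cos (2 * Real.pi * z 2)) * hb -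
      (v 1) * hsc
  · exact h2
  · exact ht j

theorem isQContact (r : ℕ) : IsQContact (torusGroup (r + 4)) 1 (r + 2) (lam r) (bundleR r) where
  n_pos := le_refl 1
  q_pos := by omega
  deckGroup := isDeckGroup_torusGroup _
  finiteDimensional := inferInstance
  finrank_eq := by simp; omega
  smooth := by
    intro i
    have h2 : ContDiff ℝ ∞ (fun z : V r => 2 * Real.pi * z 2) :=
      contDiff_const.mul (contDiff_apply ℝ ℝ 2)
    have h : ContDiff ℝ ∞ (alpha r) :=
      ((Real.contDiff_cos.comp h2).smul contDiff_const).add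
        ((Real.contDiff_sin.comp h2).smul contDiff_const)
    exact h.add contDiff_const
  invariant := by
    rintro i g ⟨k, hk⟩ x v
    have hg : (g : V r → V r) = fun x => x + fun i => (k i : ℝ) := funext hk
    have h1 : fderiv ℝ (g : V r → V r) x v = v := by
      rw [hg, fderiv_add_const]; simp
    rw [h1]
    have h2 : lam r i (g x) = lam r i x := by
      have h3 : g x 2 = x 2 + k 2 := by rw [hk]; rfl
      have hc : Real.cos (2 * Real.pi * g x 2) = Real.cos (2 * Real.pi * x 2) := by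
        rw [h3, mul_add, show 2 * Real.pi * (k 2 : ℝ) = (k 2 : ℝ) * (2 * Real.pi) by ring,
          Real.cos_add_int_mul_two_pi]
      have hs : Real.sin (2 * Real.pi * g x 2) = Real.sin (2 * Real.pi * x 2) := by
        rw [h3, mul_add, show 2 * Real.pi * (k 2 : ℝ) = (k 2 : ℝ) * (2 * Real.pi) by ring,
          Real.sin_add_int_mul_two_pi]
      simp only [lam, alpha, hc, hs]
    rw [h2]
  linearIndependent := by
    intro z
    rw [Fintype.linearIndependent_iff]
    intro c hc i
    have h := congrArg (fun f : V r →L[ℝ] ℝ => f (disp (Pi.single i 1) (z 2))) hc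
    simp only [FunLike.coe_sum, Finset.sum_apply, FunLike.coe_smul,
      Pi.smul_apply, lam_disp, smul_eq_mul, zero_apply] at h
    simpa [Pi.single_apply] using h
  splitting := by
    intro z
    constructor
    · rw [Submodule.disjoint_def]
      rintro v ⟨h2, hb⟩ hv
      exact eq_zero_of_mem hv h2 hb
    · rw [codisjoint_iff, Submodule.eq_top_iff']
      intro v
      rw [Submodule.mem_sup]
      refine ⟨v - (beta r z v • vecN (z 2) + v 2 • vecT), ⟨?_, ?_⟩,
        beta r z v • vecN (z 2) + v 2 • vecT, ?_, by simp⟩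
      · simp [vecN_two, vecT_two]
      · rw [map_sub, map_add, map_smul, map_smul, beta_vecN, beta_vecT]
        simp
      · exact Submodule.add_mem _ (Submodule.smul_mem _ _ (vecN_mem z))
          (Submodule.smul_mem _ _ (vecT_mem z))
  nondegenerate := by
    intro i z v hv h
    have hpi := Real.pi_pos
    have h1 := h (vecN (z 2)) (vecN_mem z)
    have h2 := h vecT (vecT_mem z)
    rw [extD_lam, beta_vecN, vecN_two] at h1
    rw [extD_lam, beta_vecT, vecT_two] at h2
    have h3 : v 2 = 0 := by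
      have : 2 * Real.pi * v 2 = 0 := by linarith
      rcases mul_eq_zero.1 this with h | h
      · exact absurd h (by positivity)
      · exact h
    have h4 : beta r z v = 0 := by
      have : 2 * Real.pi * beta r z v = 0 := by linarith
      rcases mul_eq_zero.1 this with h | h
      · exact absurd h (by positivity)
      · exact h
    exact eq_zero_of_mem hv h3 h4
  ker_eq := by
    intro i z v
    have hpi := Real.pi_pos
    constructor
    · intro h
      have h1 := h (vecN (z 2))
      have h2 := h vecT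
      rw [extD_lam, beta_vecN, vecN_two] at h1
      rw [extD_lam, beta_vecT, vecT_two] at h2
      have h3 : v 2 = 0 := by
        have : 2 * Real.pi * v 2 = 0 := by linarith
        rcases mul_eq_zero.1 this with h | h
        · exact absurd h (by positivity)
        · exact h
      have h4 : beta r z v = 0 := by
        have : 2 * Real.pi * beta r z v = 0 := by linarith
        rcases mul_eq_zero.1 this with h | h
        · exact absurd h (by positivity)
        · exact h
      exact ⟨h3, h4⟩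
    · rintro ⟨h2, hb⟩ w
      rw [extD_lam, h2, hb]; ring

/-- The contact action of the example. -/
def action (r : ℕ) : ContactAction (torusGroup (r + 4)) (lam r) (bundleR r) where
  F s z := z + disp s (z 2)
  X i z := disp (Pi.single i 1) (z 2)
  smooth := by
    have h2 : ContDiff ℝ ∞ (fun p : (Fin (r + 2) → ℝ) × V r => 2 * Real.pi * p.2 2) :=
      contDiff_const.mul ((contDiff_apply ℝ ℝ 2).comp contDiff_snd)
    have hs : ∀ i, ContDiff ℝ ∞ (fun p : (Fin (r + 2) → ℝ) × V r => p.1 i) := fun i =>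
      (contDiff_apply ℝ ℝ i).comp contDiff_fst
    refine contDiff_snd.add ?_
    rw [contDiff_pi]
    intro i
    refine coord_cases (p := fun i => ContDiff ℝ ∞
      (fun p : (Fin (r + 2) → ℝ) × V r => disp p.1 (p.2 2) i)) ?_ ?_ ?_ (fun j => ?_) i
    · exact ((hs 0).mul (Real.contDiff_cos.comp h2)).sub
        (contDiff_const.mul ((hs 1).sub (hs 0)))
    · exact ((hs 0).mul (Real.contDiff_sin.comp h2)).sub
        (contDiff_const.mul ((hs 1).sub (hs 0)))
    · exact contDiff_const
    · exact (hs j.succ).sub (hs 0)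
  zero := by
    intro x
    have : disp (0 : Fin (r + 2) → ℝ) (x 2) = 0 := by
      have := disp_smul (r := r) 0 0 (x 2)
      simpa using this
    rw [this, add_zero]
  add := by
    intro s t x
    have h2 : (x + disp t (x 2)) 2 = x 2 := by rw [Pi.add_apply, disp_two, add_zero]
    rw [h2, disp_add]
    abel
  equivariant := by
    rintro g ⟨k, hk⟩ s x
    rw [hk, hk]
    have h3 : (x + fun i => (k i : ℝ)) 2 = x 2 + k 2 := rfl
    have hc : Real.cos (2 * Real.pi * (x 2 + k 2)) = Real.cos (2 * Real.pi * x 2) := by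
      rw [mul_add, show 2 * Real.pi * (k 2 : ℝ) = (k 2 : ℝ) * (2 * Real.pi) by ring,
        Real.cos_add_int_mul_two_pi]
    have hs : Real.sin (2 * Real.pi * (x 2 + k 2)) = Real.sin (2 * Real.pi * x 2) := by
      rw [mul_add, show 2 * Real.pi * (k 2 : ℝ) = (k 2 : ℝ) * (2 * Real.pi) by ring,
        Real.sin_add_int_mul_two_pi]
    have hd : disp s (x 2 + k 2) = disp s (x 2) := by
      simp only [disp, hc, hs]
    rw [h3, hd]
    abel
  reeb := by
    intro i z
    refine ⟨⟨disp_two _ _, beta_disp _ _⟩, fun j => ?_⟩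
    rw [lam_disp, Pi.single_apply]
    simp only [eq_comm]
  generated := by
    intro i s x
    have h2 : (x + disp s (x 2)) 2 = x 2 := by rw [Pi.add_apply, disp_two, add_zero]
    rw [h2]
    have h : (fun τ : ℝ => x + disp (s + τ • Pi.single i 1) (x 2)) =
        fun τ : ℝ => (x + disp s (x 2)) + τ • disp (Pi.single i 1) (x 2) := by
      funext τ
      rw [disp_add, disp_smul, add_assoc]
    rw [h]
    have h3 : HasDerivAt (fun τ : ℝ => τ • (disp (Pi.single i 1) (x 2) : V r))
        ((1 : ℝ) • (disp (Pi.single i 1) (x 2) : V r)) 0 :=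
      (hasDerivAt_id (0 : ℝ)).smul_const _
    rw [one_smul] at h3
    exact h3.const_add _

/-! ## No leaf is homeomorphic to `T^q` -/

/-- `1, √2, √3` are linearly independent over the rationals. -/
lemma indep {a b c : ℤ} (h : (a : ℝ) * √2 + b * √3 + c = 0) : a = 0 ∧ b = 0 := by
  have h2 : √2 * √2 = 2 := Real.mul_self_sqrt (by norm_num)
  have h3 : √3 * √3 = 3 := Real.mul_self_sqrt (by norm_num)
  have h6 : √2 * √3 = √6 := by rw [← Real.sqrt_mul (by norm_num)]; norm_num
  have i6 : Irrational √6 := by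
    rw [irrational_sqrt_ofNat_iff]
    rintro ⟨m, hm⟩
    have h1 : m ≤ 2 := by nlinarith
    have : m = 0 ∨ m = 1 ∨ m = 2 := by omega
    rcases this with rfl | rfl | rfl <;> omega
  have i2 : Irrational √2 := irrational_sqrt_two
  have i3 : Irrational √3 := by
    rw [irrational_sqrt_ofNat_iff]
    rintro ⟨m, hm⟩
    have h1 : m ≤ 1 := by nlinarith
    have : m = 0 ∨ m = 1 := by omega
    rcases this with rfl | rfl <;> omega
  -- squaring
  have e1 : (2 * a * b : ℤ) * √6 + (2 * a ^ 2 + 3 * b ^ 2 - c ^ 2 : ℤ) = 0 := by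
    have : ((a : ℝ) * √2 + b * √3) ^ 2 = c ^ 2 := by
      have : (a : ℝ) * √2 + b * √3 = - c := by linarith
      rw [this]; ring
    push_cast
    rw [← h6]
    linear_combination this - (a : ℝ) ^ 2 * h2 - (b : ℝ) ^ 2 * h3
  have e2 : a * b = 0 := by
    by_contra hab
    have h4 : (2 * a * b : ℤ) ≠ 0 := by
      intro h5; apply hab; linarith
    apply (i6.intCast_mul h4).add_intCast (2 * a ^ 2 + 3 * b ^ 2 - c ^ 2)
    exact ⟨0, by rw [Rat.cast_zero, e1]⟩
  rcases mul_eq_zero.1 e2 with ha | hb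
  · refine ⟨ha, ?_⟩
    by_contra hb
    apply (i3.intCast_mul hb).add_intCast c
    refine ⟨0, ?_⟩
    rw [ha] at h
    rw [Rat.cast_zero]
    simpa using h.symm
  · refine ⟨?_, hb⟩
    by_contra ha
    apply (i2.intCast_mul ha).add_intCast c
    refine ⟨0, ?_⟩
    rw [hb] at h
    rw [Rat.cast_zero]
    simpa using h.symm

/-- The elements of the isotropy groups. -/
lemma mem_isotropy {r : ℕ} {x : V r} {s : Fin (r + 2) → ℝ} (hs : s ∈ (action r).isotropy x) :
    ∃ k l m : ℤ, s 1 - s 0 = m ∧ s 0 * Real.cos (2 * Real.pi * x 2) - √2 * m = k ∧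
      s 0 * Real.sin (2 * Real.pi * x 2) - √3 * m = l := by
  obtain ⟨g, ⟨k, hk⟩, hg⟩ := hs
  have h : x + disp s (x 2) = x + fun i => (k i : ℝ) := by rw [← hk x]; exact hg
  have h' : disp s (x 2) = fun i => (k i : ℝ) := add_left_cancel h
  have h0 := congrFun h' 0
  have h1 := congrFun h' 1
  have h3 := congrFun h' (ti 0)
  rw [disp_zero] at h0
  rw [disp_one] at h1
  rw [disp_ti_zero] at h3
  exact ⟨k 0, k 1, k (ti 0), h3, by rw [← h3]; exact h0, by rw [← h3]; exact h1⟩

/-- Some non-zero linear functional vanishes on the isotropy group. -/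
lemma exists_functional {r : ℕ} (x : V r) : ∃ A B : ℝ, (A ≠ 0 ∨ B ≠ 0) ∧
    ∀ s ∈ (action r).isotropy x, A * s 0 + B * (s 1 - s 0) = 0 := by
  by_cases h : ∀ s ∈ (action r).isotropy x, s 1 - s 0 = 0
  · refine ⟨0, 1, Or.inr one_ne_zero, fun s hs => ?_⟩
    rw [h s hs]; ring
  · push Not at h
    obtain ⟨s', hs', hne⟩ := h
    obtain ⟨k', l', m', h1, h2, h3⟩ := mem_isotropy hs'
    rw [h1] at hne
    refine ⟨m', - s' 0, Or.inl hne, fun s hs => ?_⟩
    obtain ⟨k, l, m, h4, h5, h6⟩ := mem_isotropy hs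
    rw [h4]
    -- `u` is the coefficient of `m' s - m s'`
    set u : ℝ := m' * s 0 + -s' 0 * m with hu
    set C := Real.cos (2 * Real.pi * x 2)
    set S := Real.sin (2 * Real.pi * x 2)
    have hsc : S ^ 2 + C ^ 2 = 1 := Real.sin_sq_add_cos_sq _
    have e1 : u * C = (m' * k - m * k' : ℤ) := by
      push_cast
      rw [hu, ← h2, ← h5]; ring
    have e2 : u * S = (m' * l - m * l' : ℤ) := by
      push_cast
      rw [hu, ← h3, ← h6]; ring
    have e3 : ((m' * (m' * l - m * l') : ℤ) : ℝ) * √2 + (-(m' * (m' * k - m * k')) : ℤ) * √3 +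
        (k' * (m' * l - m * l') - l' * (m' * k - m * k') : ℤ) = 0 := by
      have q1 : (s' 0 * C) * (u * S) = (s' 0 * S) * (u * C) := by ring
      have q2 : s' 0 * C = k' + √2 * m' := by linarith
      have q3 : s' 0 * S = l' + √3 * m' := by linarith
      rw [e1, e2, q2, q3] at q1
      push_cast at q1 ⊢
      linear_combination q1
    obtain ⟨e4, e5⟩ := indep e3
    have hm' : m' ≠ 0 := by
      intro h; apply hne; rw [h]; simp
    have e6 : m' * l - m * l' = 0 := by
      rcases mul_eq_zero.1 e4 with h | h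
      · exact absurd h hm'
      · exact h
    have e7 : m' * k - m * k' = 0 := by
      rcases mul_eq_zero.1 (neg_eq_zero.1 e5) with h | h
      · exact absurd h hm'
      · exact h
    rw [e7] at e1
    rw [e6] at e2
    simp only [Int.cast_zero] at e1 e2
    have : u = (u * C) * C + (u * S) * S := by linear_combination (-u) * hsc
    rw [this, e1, e2]; ring

/-- No leaf is compact. -/
theorem not_compactSpace_leaf (r : ℕ) (x : V r) : ¬ CompactSpace ((action r).Leaf x) := by
  intro hc
  obtain ⟨A, B, hne, hAB⟩ := exists_functional x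
  let ℓ : (Fin (r + 2) → ℝ) →+ ℝ :=
    { toFun := fun s => A * s 0 + B * (s 1 - s 0)
      map_zero' := by simp
      map_add' := by intro s t; simp only [Pi.add_apply]; ring }
  have hcont : Continuous ℓ := by
    change Continuous (fun s : Fin (r + 2) → ℝ => A * s 0 + B * (s 1 - s 0))
    fun_prop
  have hker : (action r).isotropy x ≤ ℓ.ker := fun s hs => hAB s hs
  let L := QuotientAddGroup.lift ((action r).isotropy x) ℓ hker
  have hL : Continuous L := hcont.quotient_lift _
  have hsurj : Function.Surjective L := by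
    intro y
    have : ∃ s : Fin (r + 2) → ℝ, A * s 0 + B * (s 1 - s 0) = y := by
      by_cases hB : B = 0
      · have hA : A ≠ 0 := by
          rcases hne with h | h
          · exact h
          · exact absurd hB h
        refine ⟨fun _ => y / A, ?_⟩
        field_simp
        ring
      · refine ⟨Pi.single 1 (y / B), ?_⟩
        have h01 : (0 : Fin (r + 2)) ≠ 1 := by
          intro h
          have := congrArg Fin.val h
          simp at this
        simp only [Pi.single_eq_same, Pi.single_eq_of_ne h01]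
        field_simp
        ring
    obtain ⟨s, hs⟩ := this
    exact ⟨QuotientAddGroup.mk s, hs⟩
  have : CompactSpace ℝ := by
    rw [← isCompact_univ_iff, ← hsurj.range_eq]
    exact isCompact_range hL
  exact (not_compactSpace_iff.2 (inferInstance : NoncompactSpace ℝ)) this

/-- **The generalised Weinstein conjecture for contact foliations fails.** For every `r`, with
`q = r + 2`, there is a `q`-contact structure on the closed manifold `T^{q+2} = ℝ^{q+2} / ℤ^{q+2}`
(of dimension `2 n + q` with `n = 1`), with a contact action, none of whose leaves is homeomorphic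
to the torus `T^q`; in fact no leaf is compact. -/
theorem result (r : ℕ) :
    ∃ (lam : Fin (r + 2) → (Fin (r + 4) → ℝ) → ((Fin (r + 4) → ℝ) →L[ℝ] ℝ))
      (R : (Fin (r + 4) → ℝ) → Submodule ℝ (Fin (r + 4) → ℝ)),
      IsQContact (torusGroup (r + 4)) 1 (r + 2) lam R ∧
      ∃ A : ContactAction (torusGroup (r + 4)) lam R, ∀ x,
        IsEmpty (A.Leaf x ≃ₜ (Fin (r + 2) → AddCircle (1 : ℝ))) ∧ ¬ CompactSpace (A.Leaf x) := by
  refine ⟨lam r, bundleR r, isQContact r, action r, fun x => ⟨⟨fun e => ?_⟩,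
    not_compactSpace_leaf r x⟩⟩
  have : Fact ((0 : ℝ) < 1) := ⟨one_pos⟩
  exact not_compactSpace_leaf r x e.symm.compactSpace

end Pool.Agent.Results.MP_666db5_gt.NoToralLeaf
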